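import Pool.Agent.U307.NIL.Stm
import Pool.Agent.TH261.AB.Base

/-! Project NIL, package MOB: Möbius against `ρ (k n)` along residue classes with linear twists, in finite dimension. -/

set_option autoImplicit false
set_option linter.unusedSectionVars false

open Filter Topology Finset Polynomial

namespace Pool.Agent.U949.NIL

open Pool.Agent.U307.NIL
open Pool.Agent.Helper188.NCM (mob ee norm_ee ee_add norm_mob_le)
open Pool.Agent.TH261.AB (mob_poly)
open Pool.Agent.H767R2 (cav)

section av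

variable {K : Type*} [NormedAddCommGroup K] [NormedSpace ℂ K]

theorem av_norm (a : ℕ → K) (N : ℕ) : ‖av a N‖ = ‖∑ n ∈ range N, a n‖ / N := by
  rw [av, norm_smul, norm_inv, Complex.norm_natCast]
  ring

theorem tendsto_av_iff (a : ℕ → K) : Tendsto (av a) atTop (𝓝 0) ↔
    Tendsto (fun N : ℕ => ‖∑ n ∈ range N, a n‖ / N) atTop (𝓝 0) := by
  rw [tendsto_zero_iff_norm_tendsto_zero]
  exact tendsto_congr fun N => av_norm a N

theorem av_le {a : ℕ → K} {C : ℝ} (hC : 0 ≤ C) (ha : ∀ n, ‖a n‖ ≤ C) (N : ℕ) :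
    ‖av a N‖ ≤ C := by
  rw [av_norm]
  refine div_le_of_le_mul₀ (by positivity) hC ?_
  refine (norm_sum_le _ _).trans ?_
  calc _ ≤ ∑ _j ∈ range N, C := Finset.sum_le_sum fun j _ => ha j
    _ = C * N := by rw [Finset.sum_const, Finset.card_range, nsmul_eq_mul]; ring

theorem av_of_residues {a : ℕ → K} {C : ℝ} (hC : 0 ≤ C) (ha : ∀ n, ‖a n‖ ≤ C) {q : ℕ} (hq : 0 < q)
    (h : ∀ r < q, Tendsto (av fun n => a (q * n + r)) atTop (𝓝 0)) :
    Tendsto (av a) atTop (𝓝 0) := by
  rw [tendsto_av_iff]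
  have hdiv : Tendsto (fun N : ℕ => N / q) atTop atTop := Nat.tendsto_div_const_atTop hq.ne'
  have h1 : Tendsto (fun N : ℕ => ∑ r ∈ range q, ‖∑ n ∈ range (N / q), a (q * n + r)‖ /
      ((N / q : ℕ) : ℝ)) atTop (𝓝 0) := by
    have : (0 : ℝ) = ∑ _r ∈ range q, (0 : ℝ) := by simp
    rw [this]
    refine tendsto_finsetSum _ fun r hr => ?_
    exact ((tendsto_av_iff _).mp (h r (Finset.mem_range.mp hr))).comp hdiv
  have h2 : Tendsto (fun N : ℕ => (q * C : ℝ) / N) atTop (𝓝 0) :=
    tendsto_const_div_atTop_nhds_zero_nat _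
  have h3 := h1.add h2
  rw [add_zero] at h3
  have hblock : ∀ M : ℕ, ∑ n ∈ range (q * M), a n =
      ∑ r ∈ range q, ∑ n ∈ range M, a (q * n + r) := by
    intro M
    induction M with
    | zero => simp
    | succ M ih =>
      rw [Nat.mul_succ, Finset.sum_range_add, ih, ← Finset.sum_add_distrib]
      refine Finset.sum_congr rfl fun r _ => ?_
      rw [Finset.sum_range_succ]
  refine squeeze_zero' (Eventually.of_forall fun N => by positivity) ?_ h3
  filter_upwards [eventually_ge_atTop q] with N hN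
  have hNpos : (0 : ℝ) < N := by
    have : 0 < N := lt_of_lt_of_le hq hN
    exact_mod_cast this
  have hMpos : 0 < N / q := Nat.div_pos hN hq
  have hMR : (0 : ℝ) < ((N / q : ℕ) : ℝ) := by exact_mod_cast hMpos
  have hsplit : ∑ n ∈ range N, a n = ∑ n ∈ range (q * (N / q)), a n
      + ∑ n ∈ range (N % q), a (q * (N / q) + n) := by
    rw [← Finset.sum_range_add, Nat.div_add_mod]
  have hrem : ‖∑ n ∈ range (N % q), a (q * (N / q) + n)‖ ≤ q * C := by
    refine (norm_sum_le _ _).trans ?_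
    calc _ ≤ ∑ _j ∈ range (N % q), C := Finset.sum_le_sum fun j _ => ha _
      _ = (N % q : ℕ) * C := by rw [Finset.sum_const, Finset.card_range, nsmul_eq_mul]
      _ ≤ q * C := by
        gcongr
        exact (Nat.mod_lt N hq).le
  rw [hsplit, hblock]
  calc ‖∑ r ∈ range q, ∑ n ∈ range (N / q), a (q * n + r) +
        ∑ n ∈ range (N % q), a (q * (N / q) + n)‖ / N
      ≤ (∑ r ∈ range q, ‖∑ n ∈ range (N / q), a (q * n + r)‖ + q * C) / N := by
        gcongr
        exact (norm_add_le _ _).trans (add_le_add (norm_sum_le _ _) hrem)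
    _ = (∑ r ∈ range q, ‖∑ n ∈ range (N / q), a (q * n + r)‖) / N + q * C / N := add_div _ _ _
    _ ≤ (∑ r ∈ range q, ‖∑ n ∈ range (N / q), a (q * n + r)‖) / ((N / q : ℕ) : ℝ) + q * C / N := by
        gcongr
        exact_mod_cast Nat.div_le_self N q
    _ = _ := by rw [Finset.sum_div]

end av

theorem t_MOB (hPH : S_PH) : S_MOB := by
  intro M _ k s hk K _ _ _ ρ hirr hfin m r hm hr θ ξ
  obtain ⟨-, Q, hQ, hP⟩ := hPH M k s hk K ρ hirr hfin
  refine av_of_residues (C := ‖ξ‖) (norm_nonneg _) (fun n => ?_) hQ (fun a ha => ?_)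
  · rw [norm_smul, norm_mul, LinearIsometryEquiv.norm_map]
    have h1 : ‖(((ArithmeticFunction.moebius (m * n + r) : ℤ) : ℂ))‖ ≤ 1 := norm_mob_le _
    have h2 : ‖e (θ * n)‖ = 1 := norm_ee _
    rw [h2, mul_one]
    exact mul_le_of_le_one_left (norm_nonneg _) h1
  · obtain ⟨P, hPj⟩ := hP a
    set β : ℝ[X] := P + C (θ * Q) * X + C (θ * a) with hβ
    have hlt : m * a + r < m * Q :=
      calc m * a + r < m * a + m := by omega
        _ = m * (a + 1) := by ring
        _ ≤ m * Q := Nat.mul_le_mul_left _ ha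
    have h1 := mob_poly β.natDegree β (Nat.le_succ _) (m * Q) (m * a + r) (Nat.mul_pos hm hQ) hlt
    have h2 := h1.smul_const (ρ (k a) ξ)
    rw [zero_smul] at h2
    refine h2.congr fun N => ?_
    rw [cav, av, one_div, ← smul_smul, Finset.sum_smul]
    congr 1
    refine Finset.sum_congr rfl fun j _ => ?_
    have h3 : k (Q * j + a) = k (a + Q * j) := by rw [Nat.add_comm]
    rw [h3, hPj j ξ, smul_smul]
    congr 1
    have h4 : m * (Q * j + a) + r = m * Q * j + (m * a + r) := by ring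
    have h5 : β.eval (j : ℝ) = θ * ((Q * j + a : ℕ) : ℝ) + P.eval (j : ℝ) := by
      rw [hβ]
      simp only [eval_add, eval_mul, eval_C, eval_X]
      push_cast
      ring
    show mob (m * Q * j + (m * a + r)) * ee (β.eval (j : ℝ)) =
      mob (m * (Q * j + a) + r) * ee (θ * ((Q * j + a : ℕ) : ℝ)) * ee (P.eval (j : ℝ))
    rw [h4, h5, ee_add]
    ring

end Pool.Agent.U949.NIL
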